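import Pool.Agent.X274.MX.Scal
import Pool.Agent.X274.PR.Homs
import Pool.Agent.X274.SU.Fftu
import Pool.Agent.X274.SU.Invu
import Pool.Agent.X274.SU.Rootu
import Pool.Agent.X274.DT.Local
import Pool.Agent.X274.DT.Tors
import Pool.Agent.Y708.ZO.Tan
import Pool.Agent.Y710.ZS.Tans
import Pool.Agent.Y246.SU.DCT
import Pool.Agent.Y154.SU.Coef
import Pool.Agent.Y217.SU.Lieu
import Pool.Agent.Y177.SU.Fftd
import Pool.Agent.Y794.SV.Rootv
import Pool.Agent.Y641.SV.Liev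
import Pool.Agent.Y710.SV.Fftv
import Pool.Agent.Y79.SV.Fftdv
import Pool.Agent.Y314.SV.Perfv
import Pool.Agent.Y405.SU.Perf

/-!
# All Tate classes on all powers, from endomorphisms, polarizations and determinants

Let `M_0, ..., M_r` be pure motives of any weights `w_i` over a number field `K`, for example direct
factors, cut out by algebraic correspondences, of the cohomology of smooth projective varieties. A
number field `E_i`, Galois over `ℚ` (`E_i = ℚ` is allowed), acts on `M_i`, with the adjoints `bar a`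
(`a ∈ E_i`) for a polarization, and the `ℓ`-adic realization `V_i` is free of rank `n_i` over `E_i ⊗ ℚ_ℓ`. The
form `J_i` on `V_i` is symmetric or alternating; it is multiplied by `χ ^ (w_i)`, `χ` the inverse of the
cyclotomic character. So there are three types of motives: orthogonal and symplectic ones over the
totally real field `E_i` (`bar = 1`), and unitary ones over the CM field `E_i`. At the places `v` of good
reduction the geometric Frobenius element has a characteristic polynomial `P_{i,v}` with rational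
coefficients, independent of `ℓ`. As in the starting results the representations may come from a
profinite group `Γ` with a homomorphism `s` from the Galois group of `K`; the case `Γ = Gal(K̄/K)`, `s = id` is
the one of the problem.

**Theorem.** Suppose that
(1) for every `i` there is a place `v` such that the roots of `P_{i,v}` are simple and `x / y = z / u` for
roots `x ≠ y`, `z`, `u` only in the trivial cases;
(2) for every `i` the conditions on finitely many polynomials `P_{i,v}` of the definition `EnoughPlaces`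
hold;
(3) for `i ≠ j` there is a place `v` such that the roots of `P_{i,v}` are simple and no quotient of two
different roots of `P_{i,v}` is a quotient of two roots of `P_{j,v}`.
Then for all prime numbers `ℓ` outside of a set of natural density zero **every Tate class on every
product of powers of the `M_i`, of any degree and any twist, is a linear combination of products of**
* the classes `J_i(a x, y)` of the polarizations and the endomorphisms `a ∈ E_i`, and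
* (for the unitary and the orthogonal motives only) the determinants: the `E_i`-balanced alternating
forms in `n_i` variables on `V_i`; they form a space of dimension `[E_i : ℚ]`, the `ℓ`-adic realization of the
dual of the maximal exterior power of `M_i` over `E_i`. For abelian varieties of Weil type these are
the classes of Weil.

Consequently for these `ℓ` the Tate conjecture for all products of powers of the `M_i` follows from the
algebraicity of the determinants, at most `r + 1` spaces of classes, one for each motive; there is nothing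
to be shown for the symplectic ones. (The theorem is an upper bound: if a determinant is not a Tate class
itself, as for unitary motives which are not of Weil type, then it occurs in Tate classes only together with
others.)

The new result `MixedTypesDensityOne` (of the problem `MP_b8862a_ag`), about the Lie algebra of the image
of the Galois group, has the statement about Tate classes only for forms in `k` variables with `k`
less than the ranks `n_i` of the orthogonal and unitary motives, where there are no determinants. The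
exceptional classes appear exactly from the degree `n_i` on. The new part is the first fundamental
theorem of invariant theory with determinants for products of restrictions of scalars of special
orthogonal, symplectic and special linear (unitary) groups over `ℚ_ℓ`, in all degrees, for the
action of the Lie algebras: the Casimir operator of the Lie algebra, applied to an invariant form,
gives an identity which expresses the form by contractions, with a nonzero coefficient, until a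
part is reached which is alternating in all variables of one kind.
-/

set_option autoImplicit false

namespace Pool.Agent.Results.MP_938ce2_ag.DeterminantClasses

open Matrix Polynomial Filter Topology NumberField IsDedekindDomain

/-- the absolute Galois group of `K`, with its profinite (Krull) topology -/
abbrev AbsoluteGaloisGroup (K : Type) [Field K] : Type := Gal(AlgebraicClosure K/K)

/-- `σ` is an (arithmetic) Frobenius element at the prime `v` of the number field `K`: for some prime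
`Q` of the algebraic closure above `v` it acts on the residue field as `x ↦ x ^ N(v)` -/
def IsFrobenius {K : Type} [Field K] [NumberField K] (v : HeightOneSpectrum (𝓞 K))
    (σ : AbsoluteGaloisGroup K) : Prop :=
  ∃ Q : Ideal (𝓞 (AlgebraicClosure K)), Q.IsMaximal ∧
    Q.comap (algebraMap (𝓞 K) (𝓞 (AlgebraicClosure K))) = v.asIdeal ∧
    ∀ x : 𝓞 (AlgebraicClosure K), σ • x - x ^ Ideal.absNorm v.asIdeal ∈ Q

/-- the `ℓ`-adic realizations of the motives `M_0, ..., M_r` of the weights `w i`: the `ρ i` are continuous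
representations of `Γ` on `ℚ_ℓ ^ (N i)`, and the nondegenerate symmetric or alternating forms with the
matrices `J i` are multiplied by the powers `χ ^ (w i)` of one continuous character `χ` (the inverse of the
cyclotomic character); for all `v ∉ S` which are prime to `ℓ` and for (the images under `s` of) the
geometric Frobenius elements `σ⁻¹` (`σ` arithmetic) at `v` the value of `χ` is the norm of `v`, and the
characteristic polynomial of `ρ i` is `P i v` -/
def IsMotivicFamily (K : Type) [Field K] [NumberField K] {Γ : Type} [Group Γ]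
    [TopologicalSpace Γ] (s : AbsoluteGaloisGroup K →* Γ) {r : ℕ} (N : Fin (r + 1) → ℕ)
    (w : Fin (r + 1) → ℤ) (ℓ : ℕ) [Fact ℓ.Prime] (χ : Γ →* ℚ_[ℓ])
    (ρ : ∀ i, Γ →* Matrix (Fin (N i)) (Fin (N i)) ℚ_[ℓ])
    (J : ∀ i, Matrix (Fin (N i)) (Fin (N i)) ℚ_[ℓ])
    (S : Set (HeightOneSpectrum (𝓞 K))) (P : Fin (r + 1) → HeightOneSpectrum (𝓞 K) → ℚ[X]) :
    Prop :=
  Continuous χ ∧
    (∀ i, Continuous (ρ i) ∧ ((J i)ᵀ = J i ∨ (J i)ᵀ = -J i) ∧ (J i).det ≠ 0 ∧
      ∀ γ, (ρ i γ)ᵀ * J i * ρ i γ = χ γ ^ w i • J i) ∧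
    ∀ v ∉ S, (ℓ : 𝓞 K) ∉ v.asIdeal → ∀ σ : AbsoluteGaloisGroup K, IsFrobenius v σ →
      χ (s σ⁻¹) = (Ideal.absNorm v.asIdeal : ℚ_[ℓ]) ∧
        ∀ i, (ρ i (s σ⁻¹)).charpoly = (P i v).map (algebraMap ℚ ℚ_[ℓ])

/-- the field `E` acts by endomorphisms of the representation `ρ`, with the adjoints `bar a` of `a ∈ E`
for the form `J`, and the representation is of rank `n` over `E ⊗ ℚ_ℓ` -/
def IsCoefficientAction {Γ : Type} [Group Γ] {N ℓ : ℕ} [Fact ℓ.Prime]
    (E : IntermediateField ℚ (AlgebraicClosure ℚ)) (bar : E →+* E) (n : ℕ)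
    (ρ : Γ →* Matrix (Fin N) (Fin N) ℚ_[ℓ]) (ε : E →+* Matrix (Fin N) (Fin N) ℚ_[ℓ])
    (J : Matrix (Fin N) (Fin N) ℚ_[ℓ]) : Prop :=
  (∀ (a : E) (γ : Γ), ε a * ρ γ = ρ γ * ε a) ∧ (∀ a : E, (ε a)ᵀ * J = J * ε (bar a)) ∧
    ∀ a : E, (ε a).trace = (n : ℚ_[ℓ]) * ((Algebra.trace ℚ E a : ℚ) : ℚ_[ℓ])

/-- the roots of `P v` are simple, and different roots have different `n`-th powers for all `n > 0` -/
def IsRegularPlace {K : Type} [Field K] [NumberField K]
    (S : Set (HeightOneSpectrum (𝓞 K))) (P : HeightOneSpectrum (𝓞 K) → ℚ[X])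
    (v : HeightOneSpectrum (𝓞 K)) : Prop :=
  v ∉ S ∧ (P v).Separable ∧ ∀ n : ℕ, 0 < n → ∀ x y : ℂ,
    aeval x (P v) = 0 → aeval y (P v) = 0 → x ^ n = y ^ n → x = y

/-- the roots of `P v` are simple, and the quotients `x / y` of different roots are different, except
for `x / y = (q / y) / (q / x)`, where `q` is the `w`-th power of the norm of `v` -/
def IsGenericPlace {K : Type} [Field K] [NumberField K]
    (S : Set (HeightOneSpectrum (𝓞 K))) (P : HeightOneSpectrum (𝓞 K) → ℚ[X])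
    (w : ℤ) (v : HeightOneSpectrum (𝓞 K)) : Prop :=
  v ∉ S ∧ (P v).Separable ∧ ∀ x y z u : ℂ, aeval x (P v) = 0 → aeval y (P v) = 0 →
    aeval z (P v) = 0 → aeval u (P v) = 0 → x ≠ y → x * u = z * y →
    (z = x ∧ u = y) ∨ (z * y = (Ideal.absNorm v.asIdeal : ℂ) ^ w ∧
      u * x = (Ideal.absNorm v.asIdeal : ℂ) ^ w)

/-- at one place outside of `S` the roots of `P v` are simple, and no quotient of two different roots of
`P v` is a quotient of two roots of `P' v` -/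
def IsIndependent {K : Type} [Field K] [NumberField K]
    (S : Set (HeightOneSpectrum (𝓞 K))) (P P' : HeightOneSpectrum (𝓞 K) → ℚ[X]) : Prop :=
  ∃ v, v ∉ S ∧ (P v).Separable ∧ ∀ x y z u : ℂ, aeval x (P v) = 0 → aeval y (P v) = 0 →
    aeval z (P' v) = 0 → aeval u (P' v) = 0 → x ≠ y → x * u ≠ z * y

/-- the splitting field of `Q` in the algebraic closure of `ℚ` -/
noncomputable def splittingField (Q : ℚ[X]) : Set (AlgebraicClosure ℚ) :=
  (IntermediateField.adjoin ℚ {x : AlgebraicClosure ℚ | aeval x Q = 0} :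
    IntermediateField ℚ (AlgebraicClosure ℚ))

/-- the order of the restriction of `g` to the (finite, normal) field `E` -/
noncomputable def orderOn (E : IntermediateField ℚ (AlgebraicClosure ℚ))
    (g : AbsoluteGaloisGroup ℚ) : ℕ :=
  sInf {k : ℕ | 0 < k ∧ ∀ a ∈ E, (g ^ k) a = a}

/-- `T` is a set of roots of `Q` which is stable under `w` -/
def IsStableSet (w : AbsoluteGaloisGroup ℚ) (Q : ℚ[X]) (T : Set (AlgebraicClosure ℚ)) : Prop :=
  (∀ x ∈ T, aeval x Q = 0) ∧ ∀ x ∈ T, w x ∈ T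

/-- the conditions on the Frobenius polynomials of one motive: there are regular places `u_0, ..., u_m`,
with the intersection `F` of the splitting fields of their polynomials, such that for every
automorphism `g` of the algebraic closure of `ℚ`, of order `f` on `E`,
* for every `d`, `0 < d < n [E : ℚ]`, which is not divisible by `n f`, there are a regular place `v` and an
automorphism `w` which agrees with `g` on `F` such that no set of `d` roots of `P v` is stable under `w`;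
* there are a regular place `v` and an automorphism `w` which agrees with `g` on `F` such that `w ^ f`
(`f` the order of `w` on `E`) has a fixed point in every nonempty set of roots of `P v` which is stable
under `w` and whose number of elements is divisible by `n f` -/
def EnoughPlaces {K : Type} [Field K] [NumberField K] (E : IntermediateField ℚ (AlgebraicClosure ℚ))
    (n N : ℕ) (S : Set (HeightOneSpectrum (𝓞 K))) (P : HeightOneSpectrum (𝓞 K) → ℚ[X]) : Prop :=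
  ∃ (m : ℕ) (u : Fin (m + 1) → HeightOneSpectrum (𝓞 K)), (∀ i, IsRegularPlace S P (u i)) ∧
    (∀ (g : AbsoluteGaloisGroup ℚ) (d : ℕ), 0 < d → d < N → ¬ n * orderOn E g ∣ d →
      ∃ (v : HeightOneSpectrum (𝓞 K)) (w : AbsoluteGaloisGroup ℚ), IsRegularPlace S P v ∧
        (∀ x, (∀ i, x ∈ splittingField (P (u i))) → w x = g x) ∧
        ∀ T, IsStableSet w (P v) T → T.ncard ≠ d) ∧
    ∀ g : AbsoluteGaloisGroup ℚ,
      ∃ (v : HeightOneSpectrum (𝓞 K)) (w : AbsoluteGaloisGroup ℚ), IsRegularPlace S P v ∧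
        (∀ x, (∀ i, x ∈ splittingField (P (u i))) → w x = g x) ∧
        ∀ T, IsStableSet w (P v) T → T.Nonempty → n * orderOn E w ∣ T.ncard →
          ∃ x ∈ T, (w ^ orderOn E w) x = x

/-- the alternating form `δ` in `n` variables is balanced over `E`: the action of `a ∈ E` may be moved from
one variable to any other. These forms are the `ℓ`-adic realization of the dual of the determinant, the
maximal exterior power over `E` (`n` is the rank over `E ⊗ ℚ_ℓ`) -/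
def IsBalanced {N n ℓ : ℕ} [Fact ℓ.Prime] {E : IntermediateField ℚ (AlgebraicClosure ℚ)}
    (ε : E →+* Matrix (Fin N) (Fin N) ℚ_[ℓ]) (δ : (Fin N → ℚ_[ℓ]) [⋀^Fin n]→ₗ[ℚ_[ℓ]] ℚ_[ℓ]) : Prop :=
  ∀ (a : E) (x : Fin n → Fin N → ℚ_[ℓ]) (l l' : Fin n),
    δ (Function.update x l (ε a *ᵥ x l)) = δ (Function.update x l' (ε a *ᵥ x l'))

/-- the function `f` of `k` vectors in the direct sum of the `ℚ_ℓ ^ (N i)` is a product in which every one
of the variables with an index in the set `A` occurs exactly once, and the others do not occur, with the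
factors
* `J_i(a x, y)`, `a ∈ E i`, in two different variables `x`, `y`;
* `δ(x_1, ..., x_n)`, `n = n i`, in `n i` different variables, where `δ` is an `E i`-balanced alternating form
on `ℚ_ℓ ^ (N i)`. Such a factor occurs only if `bar i ≠ 1` (unitary) or if `J i` is symmetric (orthogonal).

Only the components in `ℚ_ℓ ^ (N i)` of the variables enter into these factors -/
inductive IsProduct {r : ℕ} {N : Fin (r + 1) → ℕ} (n : Fin (r + 1) → ℕ) (ℓ : ℕ) [Fact ℓ.Prime]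
    {E : Fin (r + 1) → IntermediateField ℚ (AlgebraicClosure ℚ)} (bar : ∀ i, E i →+* E i)
    (ε : ∀ i, E i →+* Matrix (Fin (N i)) (Fin (N i)) ℚ_[ℓ])
    (J : ∀ i, Matrix (Fin (N i)) (Fin (N i)) ℚ_[ℓ]) {k : ℕ} :
    Finset (Fin k) → ((Fin k → ∀ i, Fin (N i) → ℚ_[ℓ]) → ℚ_[ℓ]) → Prop
  | one : IsProduct n ℓ bar ε J ∅ fun _ => 1
  | pairing {A : Finset (Fin k)} {f : (Fin k → ∀ i, Fin (N i) → ℚ_[ℓ]) → ℚ_[ℓ]} (i : Fin (r + 1))
      (a : E i) (j j' : Fin k) (hne : j ≠ j') (hj : j ∉ A) (hj' : j' ∉ A)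
      (h : IsProduct n ℓ bar ε J A f) :
      IsProduct n ℓ bar ε J (insert j (insert j' A)) fun v =>
        ((ε i a *ᵥ v j i) ⬝ᵥ J i *ᵥ v j' i) * f v
  | determinant {A : Finset (Fin k)} {f : (Fin k → ∀ i, Fin (N i) → ℚ_[ℓ]) → ℚ_[ℓ]}
      (i : Fin (r + 1)) (hi : (∃ a, bar i a ≠ a) ∨ (J i)ᵀ = J i)
      (δ : (Fin (N i) → ℚ_[ℓ]) [⋀^Fin (n i)]→ₗ[ℚ_[ℓ]] ℚ_[ℓ]) (hδ : IsBalanced (ε i) δ)
      (e : Fin (n i) ↪ Fin k) (he : ∀ l, e l ∉ A) (h : IsProduct n ℓ bar ε J A f) :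
      IsProduct n ℓ bar ε J (Finset.univ.map e ∪ A) fun v => δ (fun l => v (e l) i) * f v

/-- the linear combinations of the products in which every variable occurs exactly once -/
noncomputable def Generated {r : ℕ} {N : Fin (r + 1) → ℕ} (n : Fin (r + 1) → ℕ) (ℓ : ℕ) [Fact ℓ.Prime]
    {E : Fin (r + 1) → IntermediateField ℚ (AlgebraicClosure ℚ)} (bar : ∀ i, E i →+* E i)
    (ε : ∀ i, E i →+* Matrix (Fin (N i)) (Fin (N i)) ℚ_[ℓ])
    (J : ∀ i, Matrix (Fin (N i)) (Fin (N i)) ℚ_[ℓ]) (k : ℕ) :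
    Submodule ℚ_[ℓ] ((Fin k → ∀ i, Fin (N i) → ℚ_[ℓ]) → ℚ_[ℓ]) :=
  Submodule.span ℚ_[ℓ] {f | IsProduct n ℓ bar ε J Finset.univ f}

/-- every multilinear form in any number `k` of variables on the direct sum of the `ℚ_ℓ ^ (N i)` which is
invariant under those `σ` in an open subgroup of `Γ` which act by isometries is generated by pairings and
determinants; and if the weights are not all zero, then every Tate class of any twist `m` (every form
which satisfies `φ(σ v) = χ(σ) ^ m φ(v)` for all `σ` in an open subgroup) is generated by pairings and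
determinants -/
def AllTateClassesGenerated {Γ : Type} [Group Γ] [TopologicalSpace Γ] {r : ℕ}
    {N : Fin (r + 1) → ℕ} (n : Fin (r + 1) → ℕ) (w : Fin (r + 1) → ℤ) (ℓ : ℕ) [Fact ℓ.Prime]
    {E : Fin (r + 1) → IntermediateField ℚ (AlgebraicClosure ℚ)} (bar : ∀ i, E i →+* E i)
    (χ : Γ →* ℚ_[ℓ]) (ρ : ∀ i, Γ →* Matrix (Fin (N i)) (Fin (N i)) ℚ_[ℓ])
    (ε : ∀ i, E i →+* Matrix (Fin (N i)) (Fin (N i)) ℚ_[ℓ])
    (J : ∀ i, Matrix (Fin (N i)) (Fin (N i)) ℚ_[ℓ]) : Prop :=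
  (∀ (k : ℕ) (φ : MultilinearMap ℚ_[ℓ] (fun _ : Fin k => ∀ i, Fin (N i) → ℚ_[ℓ]) ℚ_[ℓ])
      (U : Subgroup Γ), IsOpen (U : Set Γ) →
    (∀ σ ∈ U, (∀ i, (ρ i σ)ᵀ * J i * ρ i σ = J i) → ∀ v, φ (fun j i => ρ i σ *ᵥ v j i) = φ v) →
    (fun v => φ v) ∈ Generated n ℓ bar ε J k) ∧
  ((∃ i, w i ≠ 0) → ∀ (k : ℕ) (m : ℤ)
      (φ : MultilinearMap ℚ_[ℓ] (fun _ : Fin k => ∀ i, Fin (N i) → ℚ_[ℓ]) ℚ_[ℓ])
      (U : Subgroup Γ), IsOpen (U : Set Γ) →
    (∀ σ ∈ U, ∀ v, φ (fun j i => ρ i σ *ᵥ v j i) = χ σ ^ m * φ v) →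
    (fun v => φ v) ∈ Generated n ℓ bar ε J k)

/-- the set `A` of prime numbers has natural density zero -/
def HasDensityZero (A : Set ℕ) : Prop :=
  Tendsto (fun n : ℕ => (Nat.card {ℓ : ℕ // ℓ ≤ n ∧ ℓ ∈ A} : ℝ) / (Nat.primeCounting n : ℝ))
    atTop (𝓝 0)

theorem dis_transfer {P Q : ℚ[X]} (hP : P ≠ 0) (hQ : Q ≠ 0)
    (h : ∀ x y z u : ℂ, aeval x P = 0 → aeval y P = 0 → aeval z Q = 0 → aeval u Q = 0 →
      x ≠ y → x * u ≠ z * y) (ℓ : ℕ) [Fact ℓ.Prime] (x' y' z' u' : AlgebraicClosure ℚ_[ℓ])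
    (hx' : aeval x' (P.map (algebraMap ℚ ℚ_[ℓ])) = 0)
    (hy' : aeval y' (P.map (algebraMap ℚ ℚ_[ℓ])) = 0)
    (hz' : aeval z' (Q.map (algebraMap ℚ ℚ_[ℓ])) = 0)
    (hu' : aeval u' (Q.map (algebraMap ℚ ℚ_[ℓ])) = 0)
    (hxy : x' ≠ y') : x' * u' ≠ z' * y' := by
  obtain ⟨jc⟩ := Y142.ZI.nonempty_LC
  obtain ⟨ι⟩ := Y142.ZI.emb ℓ
  obtain ⟨x, hx, rfl⟩ := Y142.ZI.lift_root ℓ ι hP hx'
  obtain ⟨y, hy, rfl⟩ := Y142.ZI.lift_root ℓ ι hP hy'
  obtain ⟨z, hz, rfl⟩ := Y142.ZI.lift_root ℓ ι hQ hz'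
  obtain ⟨u, hu, rfl⟩ := Y142.ZI.lift_root ℓ ι hQ hu'
  intro heq
  rw [← map_mul, ← map_mul] at heq
  have h1 := ι.injective heq
  refine h (jc x) (jc y) (jc z) (jc u) (Y142.ZS.push_C jc hx) (Y142.ZS.push_C jc hy)
    (Y142.ZS.push_C jc hz) (Y142.ZS.push_C jc hu) (fun h2 => hxy (by rw [jc.injective h2])) ?_
  rw [← map_mul, ← map_mul, h1]

theorem pair_span {r : ℕ} {N : Fin (r + 1) → ℕ} {ℓ : ℕ} [Fact ℓ.Prime]
    {E : Fin (r + 1) → IntermediateField ℚ (AlgebraicClosure ℚ)}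
    (ε : ∀ i, E i →+* Matrix (Fin (N i)) (Fin (N i)) ℚ_[ℓ])
    (J : ∀ i, Matrix (Fin (N i)) (Fin (N i)) ℚ_[ℓ]) (i : Fin (r + 1))
    {a : Matrix (Fin (N i)) (Fin (N i)) ℚ_[ℓ]} (ha : a ∈ Submodule.span ℚ_[ℓ] (Set.range (ε i)))
    {b : (Fin (N i) → ℚ_[ℓ]) → (Fin (N i) → ℚ_[ℓ]) → ℚ_[ℓ]}
    (hb : ∀ x y, b x y = (a *ᵥ x) ⬝ᵥ J i *ᵥ y) :
    (fun x y : ∀ i, Fin (N i) → ℚ_[ℓ] => b (x i) (y i)) ∈ Submodule.span ℚ_[ℓ]
      {b : (∀ i, Fin (N i) → ℚ_[ℓ]) → (∀ i, Fin (N i) → ℚ_[ℓ]) → ℚ_[ℓ] | ∃ i, ∃ a : E i,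
        b = fun x y => (ε i a *ᵥ x i) ⬝ᵥ J i *ᵥ y i} := by
  let L : Matrix (Fin (N i)) (Fin (N i)) ℚ_[ℓ] →ₗ[ℚ_[ℓ]]
      ((∀ i, Fin (N i) → ℚ_[ℓ]) → (∀ i, Fin (N i) → ℚ_[ℓ]) → ℚ_[ℓ]) :=
    { toFun := fun a x y => (a *ᵥ x i) ⬝ᵥ J i *ᵥ y i
      map_add' := fun a b => by
        funext x y
        rw [add_mulVec, add_dotProduct]
        rfl
      map_smul' := fun c a => by
        funext x y
        rw [smul_mulVec, smul_dotProduct]
        rfl }
  have h1 : (fun x y : ∀ i, Fin (N i) → ℚ_[ℓ] => b (x i) (y i)) = L a := by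
    funext x y
    exact hb _ _
  rw [h1]
  have h2 : Submodule.span ℚ_[ℓ] (Set.range (ε i)) ≤ (Submodule.span ℚ_[ℓ]
      {b : (∀ i, Fin (N i) → ℚ_[ℓ]) → (∀ i, Fin (N i) → ℚ_[ℓ]) → ℚ_[ℓ] | ∃ i, ∃ a : E i,
        b = fun x y => (ε i a *ᵥ x i) ⬝ᵥ J i *ᵥ y i}).comap L := by
    refine Submodule.span_le.2 ?_
    rintro _ ⟨a, rfl⟩
    exact Submodule.subset_span ⟨i, a, rfl⟩
  exact h2 ha

theorem prod_of {r : ℕ} {N n : Fin (r + 1) → ℕ} {ℓ : ℕ} [Fact ℓ.Prime]
    {E : Fin (r + 1) → IntermediateField ℚ (AlgebraicClosure ℚ)} {bar : ∀ i, E i →+* E i}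
    {ε : ∀ i, E i →+* Matrix (Fin (N i)) (Fin (N i)) ℚ_[ℓ]}
    {J : ∀ i, Matrix (Fin (N i)) (Fin (N i)) ℚ_[ℓ]} {k : ℕ} {A : Finset (Fin k)}
    {f : (Fin k → ∀ i, Fin (N i) → ℚ_[ℓ]) → ℚ_[ℓ]}
    (h : X274.DT.Prd {b | ∃ i, ∃ a : E i, b = fun x y => (ε i a *ᵥ x i) ⬝ᵥ J i *ᵥ y i}
      (X274.DT.DX fun i => X274.DT.DD (Algebra.adjoin ℚ_[ℓ] (Set.range (ε i))) (n i)
        ((∃ a, bar i a ≠ a) ∨ (J i)ᵀ = J i)) A f) : IsProduct n ℓ bar ε J A f := by
  induction h with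
  | one => exact IsProduct.one
  | @pair A f b hb j j' hne hj hj' hf ih =>
    obtain ⟨i, a, rfl⟩ := hb
    exact IsProduct.pairing i a j j' hne hj hj' ih
  | @det A f m δ hδ e hA hf ih =>
    obtain ⟨i, δ', ⟨rfl, hal, ω, hbal, hω⟩, rfl⟩ := hδ
    have h1 : (fun v : Fin k → ∀ i, Fin (N i) → ℚ_[ℓ] => δ' (fun l => v (e l) i) * f v) =
        fun v => ω (fun l => v (e l) i) * f v := by
      funext v
      rw [hω]
    show IsProduct n ℓ bar ε J _ fun v => δ' (fun l => v (e l) i) * f v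
    rw [h1]
    exact IsProduct.determinant i hal ω (fun a x l l' =>
      hbal _ (Algebra.subset_adjoin ⟨a, rfl⟩) x l l') e hA ih

/-- **All Tate classes on all powers are generated by endomorphisms, polarizations and determinants,**
at 100 percent of the primes `ℓ`. -/
theorem result (K : Type) [Field K] [NumberField K] (Γ : Type) [Group Γ] [TopologicalSpace Γ]
    [IsTopologicalGroup Γ] [CompactSpace Γ] (s : AbsoluteGaloisGroup K →* Γ) (hs : Continuous s)
    (S : Set (HeightOneSpectrum (𝓞 K))) (hS : S.Finite)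
    (r : ℕ) (N n : Fin (r + 1) → ℕ) (w : Fin (r + 1) → ℤ)
    (P : Fin (r + 1) → HeightOneSpectrum (𝓞 K) → ℚ[X])
    (χ : ∀ (ℓ : ℕ) [Fact ℓ.Prime], Γ →* ℚ_[ℓ])
    (ρ : ∀ (ℓ : ℕ) [Fact ℓ.Prime] (i : Fin (r + 1)), Γ →* Matrix (Fin (N i)) (Fin (N i)) ℚ_[ℓ])
    (J : ∀ (ℓ : ℕ) [Fact ℓ.Prime] (i : Fin (r + 1)), Matrix (Fin (N i)) (Fin (N i)) ℚ_[ℓ])
    (hρ : ∀ (ℓ : ℕ) [Fact ℓ.Prime], IsMotivicFamily K s N w ℓ (χ ℓ) (ρ ℓ) (J ℓ) S P)
    -- the coefficients
    (E : Fin (r + 1) → IntermediateField ℚ (AlgebraicClosure ℚ)) [∀ i, FiniteDimensional ℚ (E i)]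
    [∀ i, Normal ℚ (E i)] (bar : ∀ i, E i →+* E i)
    (hn : ∀ i, 0 < n i) (hN : ∀ i, N i = n i * Module.finrank ℚ (E i))
    (ε : ∀ (ℓ : ℕ) [Fact ℓ.Prime] (i : Fin (r + 1)),
      E i →+* Matrix (Fin (N i)) (Fin (N i)) ℚ_[ℓ])
    (hε : ∀ (ℓ : ℕ) [Fact ℓ.Prime] (i : Fin (r + 1)),
      IsCoefficientAction (E i) (bar i) (n i) (ρ ℓ i) (ε ℓ i) (J ℓ i))
    -- the places
    (hgen : ∀ i, ∃ v, IsGenericPlace S (P i) (w i) v)
    (hplaces : ∀ i, EnoughPlaces (E i) (n i) (N i) S (P i))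
    (hind : ∀ i j, i ≠ j → IsIndependent S (P i) (P j)) :
    HasDensityZero {ℓ | ∃ _ : Fact ℓ.Prime,
      ¬ AllTateClassesGenerated n w ℓ bar (χ ℓ) (ρ ℓ) (ε ℓ) (J ℓ)} := by
  classical
  -- the tasks
  have hTAN : Y142.ZO.S_TAN := Y708.ZO.t
  have hTANS : Y142.ZS.S_TANS := Y710.ZS.t1
  have hDCT : Y142.SU.S_DCT := Y246.SU.DCT.t
  have hLIEV : Y142.SV.S_LIEV := Y641.SV.t Y794.SV.t_rootv
  have hPERFV : Y142.SV.S_PERFV := Y314.SV.t_PERFV
  have hLIEU : Y142.SU.S_LIEU := Y217.SU.t X274.SU.t_rootu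
  have hFFTD : Y142.SU.S_FFTD := Y177.SU.t X274.SU.t_fftu
  have hPERF : Y142.SU.S_PERF := Y405.SU.t
  have hINVU : Y142.SU.S_INVU := X274.SU.t_invu
  have hCOEF : Y142.SU.S_COEF := Y154.SU.t_COEF
  have hgs : ∀ (ℓ : ℕ) [Fact ℓ.Prime] (i : Fin (r + 1)),
      Y142.SI.GenSys K s (N i) ℓ (ρ ℓ i) S (P i) := fun ℓ _ i =>
    ⟨((hρ ℓ).2.1 i).1, fun v hv hvℓ σ hσ => ((hρ ℓ).2.2 v hv hvℓ σ hσ).2 i⟩
  have hsys' : ∀ (i : Fin (r + 1)) (ℓ : ℕ) [Fact ℓ.Prime],
      Y142.SS.Sys K (N i) ℓ ((ρ ℓ i).comp s) S (P i) := fun i ℓ _ =>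
    ⟨(hgs ℓ i).1.comp hs, fun v hv hvℓ σ hσ => (hgs ℓ i).2 v hv hvℓ σ hσ⟩
  have hnice : ∀ i v, IsRegularPlace S (P i) v → Y142.ZS.NiceP S (P i) v := fun i v hv =>
    Y142.SS.nice_of_complexA (fun ℓ _ => (ρ ℓ i).comp s) (fun ℓ _ => hsys' i ℓ) hv.1 hv.2.1 hv.2.2
  have hmonic : ∀ i v, v ∉ S → (P i v).Monic := fun i v hv =>
    (Y142.SS.monic_of_sysA (fun ℓ _ => (ρ ℓ i).comp s) (fun ℓ _ => hsys' i ℓ) hv).1
  have henough : ∀ i, X274.PR.Enough (E i) (n i) (N i) S (P i) := by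
    intro i
    obtain ⟨m, u, hu, h1, h2⟩ := hplaces i
    have hLf : ∀ (k : Fin (m + 1)) (x : AlgebraicClosure ℚ),
        x ∈ Y142.ZI.Lf (P i (u k)) → x ∈ splittingField (P i (u k)) := by
      intro k x hx
      have h2 : (P i (u k)).rootSet (AlgebraicClosure ℚ) =
          {x : AlgebraicClosure ℚ | aeval x (P i (u k)) = 0} := by
        ext y
        exact mem_rootSet_of_ne (hu k).2.1.ne_zero
      unfold Y142.ZI.Lf at hx
      rw [h2] at hx
      exact hx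
    have hA : ∀ g w : AbsoluteGaloisGroup ℚ,
        (∀ x, (∀ k, x ∈ splittingField (P i (u k))) → w x = g x) →
        w⁻¹ * g ∈ Subgroup.closure (⋃ k, Y142.SS.Fix (P i (u k))) := by
      intro g w hw
      refine Y142.SS.field_mem _ (fun k => (hu k).2.1.ne_zero) fun x hx => ?_
      rw [AlgEquiv.mul_apply, ← hw x fun k => hLf k x (hx k), ← AlgEquiv.mul_apply, inv_mul_cancel,
        AlgEquiv.one_apply]
    refine ⟨m, u, fun k => hnice i _ (hu k), ?_, ?_⟩
    · intro g d hd hdN hnd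
      obtain ⟨v, w, hv, hw, hT⟩ := h1 g d hd hdN hnd
      exact ⟨v, hnice i v hv, w, fun T hT1 hT2 => hT T ⟨hT1, hT2⟩, hA g w hw⟩
    · intro g
      obtain ⟨v, w, hv, hw, hT⟩ := h2 g
      exact ⟨v, hnice i v hv, w, fun T hT1 hne hT2 hd => hT T ⟨hT1, hT2⟩ hne hd, hA g w hw⟩
  -- one motive
  have hone : ∀ i, Y142.ZI.DensityZero
      {ℓ | ∃ _ : Fact ℓ.Prime, ¬ Y142.SI.GoodEnd ℓ (E i) (ρ ℓ i) (ε ℓ i)} := by
    intro i
    refine Y142.ZI.DensityZero.mono (X274.PR.homs_density s hs hS (I := Unit) (fun _ => N i)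
      (fun _ => n i) (fun _ => P i) (fun ℓ _ _ => ρ ℓ i) (fun ℓ _ _ => hgs ℓ i) (fun _ => E i)
      (fun _ => inferInstance) (fun _ => inferInstance) (fun _ => hn i) (fun _ => hN i)
      (fun ℓ _ _ => ε ℓ i) (fun ℓ _ _ => (hε ℓ i).1) (fun ℓ _ _ => (hε ℓ i).2.2)
      (fun _ => henough i) fun a b hab => absurd (Subsingleton.elim a b) hab) ?_
    rintro ℓ ⟨hp, hno⟩
    exact ⟨hp, fun h => hno (h.1 ())⟩
  -- the finitely many places
  choose v₀ hv₀ using hgen
  choose vv hvv using hind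
  let c : Fin (r + 1) → Fin (r + 1) → ℕ := fun i j =>
    if h : i ≠ j then Ideal.absNorm (vv i j h).asIdeal else 0
  let b : ℕ := (∑ i, ∑ j, c i j) + ∑ i, Ideal.absNorm (v₀ i).asIdeal
  have hbig : Y142.ZI.DensityZero {ℓ : ℕ | ℓ ≤ b} := X274.TH.density_finite b
  refine Y142.ZI.DensityZero.mono (hbig.union (X274.PR.density_iUnion _ hone)) ?_
  rintro ℓ ⟨hp, hno⟩
  by_contra hnot
  rw [Set.mem_union, not_or] at hnot
  obtain ⟨hb, hgood'⟩ := hnot
  have hbℓ : b < ℓ := by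
    by_contra h
    exact hb (show ℓ ≤ b by omega)
  have hgood : ∀ i, Y142.SI.GoodEnd ℓ (E i) (ρ ℓ i) (ε ℓ i) := by
    intro i
    by_contra h
    exact hgood' (Set.mem_iUnion.2 ⟨i, hp, h⟩)
  have hv₀ℓ : ∀ i, (ℓ : 𝓞 K) ∉ (v₀ i).asIdeal := by
    intro i
    refine Y142.ZO.not_mem_of_lt (v₀ i) hp.out (lt_of_le_of_lt ?_ hbℓ)
    refine le_trans ?_ (Nat.le_add_left _ _)
    exact Finset.single_le_sum (f := fun i => Ideal.absNorm (v₀ i).asIdeal)
      (fun _ _ => Nat.zero_le _) (Finset.mem_univ i)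
  have hvvℓ : ∀ i j (hij : i ≠ j), (ℓ : 𝓞 K) ∉ (vv i j hij).asIdeal := by
    intro i j hij
    refine Y142.ZO.not_mem_of_lt (vv i j hij) hp.out (lt_of_le_of_lt ?_ hbℓ)
    refine le_trans ?_ (Nat.le_add_right _ _)
    refine le_trans ?_ (Finset.single_le_sum (f := fun i => ∑ j, c i j)
      (fun _ _ => Nat.zero_le _) (Finset.mem_univ i))
    refine le_trans ?_ (Finset.single_le_sum (f := fun j => c i j)
      (fun _ _ => Nat.zero_le _) (Finset.mem_univ j))
    simp only [c]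
    rw [dif_pos hij]
  -- the algebras of the coefficients
  let C : ∀ i, Subalgebra ℚ_[ℓ] (Matrix (Fin (N i)) (Fin (N i)) ℚ_[ℓ]) := fun i =>
    Algebra.adjoin ℚ_[ℓ] (Set.range (ε ℓ i))
  have hco := fun i => hCOEF ℓ (N i) (n i) (E i) inferInstance (hn i) (ε ℓ i) (hε ℓ i).2.2
  have hsim : ∀ i g, ∃ c : ℚ_[ℓ], Y142.ZS.Sim (J ℓ i) (ρ ℓ i g) c := fun i g =>
    ⟨_, ((hρ ℓ).2.1 i).2.2.2 g⟩
  have hNice : ∀ i, X274.DT.Nice (n i) ((∃ a, bar i a ≠ a) ∨ (J ℓ i)ᵀ = J ℓ i) (ρ ℓ i) (J ℓ i)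
      (C i) := by
    intro i
    obtain ⟨σ₀, hσ₀⟩ := Pool.Agent.W401.Frob.exists_frob (v₀ i)
    have hfr := (hρ ℓ).2.2 (v₀ i) (hv₀ i).1 (hv₀ℓ i) σ₀ hσ₀
    obtain ⟨hc, hcJ, hcd, hcs⟩ := (hρ ℓ).2.1 i
    have hnorm : (Ideal.absNorm (v₀ i).asIdeal : ℚ) ≠ 0 := by
      have h1 : Ideal.absNorm (v₀ i).asIdeal ≠ 0 := by
        rw [Ne, Ideal.absNorm_eq_zero_iff]
        exact (v₀ i).ne_bot
      exact_mod_cast h1
    have hq : ((Ideal.absNorm (v₀ i).asIdeal : ℚ) ^ w i : ℚ) ≠ 0 := zpow_ne_zero _ hnorm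
    have hG : Y142.ZS.GenP S (P i) (fun v => (Ideal.absNorm v.asIdeal : ℚ) ^ w i) (v₀ i) := by
      refine Y142.SU.gen_of_complexU (hv₀ i).1 (hmonic i _ (hv₀ i).1) hq (hv₀ i).2.1 ?_
      intro x y z u hx hy hz hu hxy he
      have h := (hv₀ i).2.2 x y z u hx hy hz hu hxy he
      rw [Rat.cast_zpow, Rat.cast_natCast]
      exact h
    have hG' := Y142.SU.generic_of_gen hG ℓ
    rw [← hfr.2 i] at hG'
    have hsep : (ρ ℓ i (s σ₀⁻¹)).charpoly.Separable := by
      rw [hfr.2 i]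
      exact (hv₀ i).2.1.map
    have hτ : Y142.ZS.Sim (J ℓ i) (ρ ℓ i (s σ₀⁻¹))
        (((Ideal.absNorm (v₀ i).asIdeal : ℚ) ^ w i : ℚ) : ℚ_[ℓ]) := by
      have h := hcs (s σ₀⁻¹)
      rw [hfr.1] at h
      unfold Y142.ZS.Sim
      rw [h, Rat.cast_zpow, Rat.cast_natCast]
    have hc0 : (((Ideal.absNorm (v₀ i).asIdeal : ℚ) ^ w i : ℚ) : ℚ_[ℓ]) ≠ 0 := by
      exact_mod_cast hq
    by_cases hbar : ∀ a, bar i a = a
    · exact X274.DT.nice_real hTAN hTANS hDCT hLIEV hPERFV hCOEF (ρ ℓ i) hc (E i)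
        inferInstance (n i) (hn i) (ε ℓ i) (hε ℓ i).1 (hε ℓ i).2.2 (J ℓ i) hcJ hcd (hsim i)
        (fun a => by
          have h := (hε ℓ i).2.1 a
          rwa [hbar a] at h) (hgood i) (s σ₀⁻¹) _ hc0 hτ hsep hG' _ (fun h => Or.inr h)
    · exact X274.DT.nice_unitary hTAN hTANS hDCT hLIEU hFFTD hPERF hINVU hCOEF (ρ ℓ i) hc (E i)
        inferInstance (n i) (hn i) (ε ℓ i) (hε ℓ i).1 (hε ℓ i).2.2 (J ℓ i) hcJ hcd (hsim i)
        (bar i) (not_forall.1 hbar) (hε ℓ i).2.1 (hgood i) (s σ₀⁻¹) _ hc0 hτ hsep hG' _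
        (Or.inl (not_forall.1 hbar))
  have hdis : ∀ i j, i ≠ j → ∃ τ : Γ, (ρ ℓ i τ).charpoly.Separable ∧
      ∀ x y z u : AlgebraicClosure ℚ_[ℓ], aeval x (ρ ℓ i τ).charpoly = 0 →
        aeval y (ρ ℓ i τ).charpoly = 0 → aeval z (ρ ℓ j τ).charpoly = 0 →
        aeval u (ρ ℓ j τ).charpoly = 0 → x ≠ y → x * u ≠ z * y := by
    intro i j hij
    obtain ⟨hvS, hsep, hroots⟩ := hvv i j hij
    obtain ⟨τ, hτ⟩ := Pool.Agent.W401.Frob.exists_frob (vv i j hij)
    have hfr := ((hρ ℓ).2.2 _ hvS (hvvℓ i j hij) τ hτ).2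
    refine ⟨s τ⁻¹, ?_, ?_⟩
    · rw [hfr i]
      exact hsep.map
    · rw [hfr i, hfr j]
      exact dis_transfer (hmonic i _ hvS).ne_zero (hmonic j _ hvS).ne_zero hroots ℓ
  have hten := (X274.DT.local_mixed (ρ ℓ) (fun i => ((hρ ℓ).2.1 i).1) (J ℓ) C hsim hNice hdis).2
  -- the explicit form of the products
  have hexp : ∀ (k : ℕ) (f : (Fin k → ∀ i, Fin (N i) → ℚ_[ℓ]) → ℚ_[ℓ]),
      f ∈ X274.DT.prdSpan (X274.DT.PX fun i => X274.DT.PP (J ℓ i) (C i))
        (X274.DT.DX fun i => X274.DT.DD (C i) (n i) ((∃ a, bar i a ≠ a) ∨ (J ℓ i)ᵀ = J ℓ i))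
        (Finset.univ : Finset (Fin k)) → f ∈ Generated n ℓ bar (ε ℓ) (J ℓ) k := by
    intro k f hf
    refine Submodule.span_le.2 ?_ hf
    intro f hf
    have h1 := X274.DT.prd_span (P' := {b | ∃ i, ∃ a : E i, b = fun x y =>
        (ε ℓ i a *ᵥ x i) ⬝ᵥ J ℓ i *ᵥ y i})
      (D' := X274.DT.DX fun i => X274.DT.DD (C i) (n i)
        ((∃ a, bar i a ≠ a) ∨ (J ℓ i)ᵀ = J ℓ i)) ?_ (fun m δ hδ => Submodule.subset_span hδ) hf
    · refine Submodule.span_mono ?_ h1
      intro g hg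
      exact prod_of hg
    · rintro b ⟨i, b', ⟨a, ha, hab⟩, rfl⟩
      exact pair_span (ε ℓ) (J ℓ) i ((hco i).2.2.1 a ha) hab
  have hT1 : ∀ (k : ℕ) (φ : MultilinearMap ℚ_[ℓ] (fun _ : Fin k => ∀ i, Fin (N i) → ℚ_[ℓ]) ℚ_[ℓ])
      (U : Subgroup Γ), IsOpen (U : Set Γ) →
      (∀ σ ∈ U, (∀ i, (ρ ℓ i σ)ᵀ * J ℓ i * ρ ℓ i σ = J ℓ i) →
        ∀ v, φ (fun j i => ρ ℓ i σ *ᵥ v j i) = φ v) →
      (fun v => φ v) ∈ Generated n ℓ bar (ε ℓ) (J ℓ) k := fun k φ U hU hφ =>
    hexp k _ (hten k φ U hU hφ)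
  refine hno ⟨hT1, fun ⟨i₀, hi₀⟩ k m φ U hU hφ => ?_⟩
  obtain ⟨U', hU'U, hU', htor⟩ := X274.DT.exists_open (χ ℓ) (hρ ℓ).1 U hU hi₀
  refine hT1 k φ U' hU' fun σ hσ hiso v => ?_
  have h1 : χ ℓ σ ^ w i₀ = 1 := by
    have h2 := ((hρ ℓ).2.1 i₀).2.2.2 σ
    rw [hiso i₀] at h2
    have hJ0 : J ℓ i₀ ≠ 0 := by
      intro h0
      have hNpos : 0 < N i₀ := by
        rw [hN]
        exact Nat.mul_pos (hn i₀) Module.finrank_pos
      have : Nonempty (Fin (N i₀)) := ⟨⟨0, hNpos⟩⟩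
      have h3 := ((hρ ℓ).2.1 i₀).2.2.1
      rw [h0, Matrix.det_zero] at h3
      exact h3 rfl
    have h3 : (χ ℓ σ ^ w i₀ - 1) • J ℓ i₀ = 0 := by rw [sub_smul, one_smul, ← h2, sub_self]
    exact sub_eq_zero.1 ((smul_eq_zero.1 h3).resolve_right hJ0)
  rw [hφ σ (hU'U hσ) v, htor σ hσ h1, _root_.one_zpow, one_mul]

end Pool.Agent.Results.MP_938ce2_ag.DeterminantClasses
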