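import Pool.Agent.X297.GT.Main

/-!
# The numbers of Tate classes and of algebraic cycles on the powers of a variety over a number field
# whose `ℓ`-adic monodromy group is a torus

Let `Y` be a smooth projective variety over a number field such that after a finite extension of the
field the Galois group acts on the `ℓ`-adic cohomology (with coefficients extended to `ℚ̄_ℓ`)
diagonally, through characters: for instance an abelian variety with complex multiplication, simple
or not, a Fermat hypersurface, or a product of such varieties. Let `b = ∑ dim H^i(Y)`, and let `r` be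
the rank of the group generated by the characters `ψ ^ 2 / χ ^ i`, where `ψ` is a character which
occurs in `H^i(Y)` and `χ` the inverse of the cyclotomic character. Let `t n` be the number of
linearly independent Tate classes (of all codimensions, over all finite extensions) on `Y ^ (n + 1)`,
and `a n` the rank of the group of all algebraic cycles on `Y ^ (n + 1)` modulo numerical equivalence.
Then there are a real number `C > 0` and `N ∈ {1, 2, …, ∞}` with

`t n ∼ C b ^ (n + 1) / (n + 1) ^ (r / 2)`,  `a n * (n + 1) ^ (r / 2) / b ^ (n + 1) ⟶ C / N`,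

and `N = 1` if and only if the Tate conjecture holds for all powers of `Y` in all codimensions.
-/

open CategoryTheory AlgebraicGeometry Filter Topology

open scoped ENNReal

universe u v w

namespace Pool.Agent.Results.MP_938ce2_ag.GrowthLawTori

open Pool.Agent.H914 Pool.Agent.H914.VarClass Pool.Agent.H914.VarClass.Obj
  Pool.Agent.H914.WeilCohomology Pool.Agent.X297.TIL Pool.Agent.X297.GT
open Pool.Agent.Y129 (pw cycRank)

theorem result {k : Type u} [Field k] {𝒱 : VarClass k} {ops : CycleOps 𝒱}
    (W : WeilCohomology.{u, v} ops) (Y : 𝒱.Obj) [Nontrivial (W.H Y)] {Γ : Type w} [Group Γ]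
    (χ : Γ →* W.Kˣ) (G : GaloisPowers W Y Γ χ) (Δ : Subgroup Γ) (h : IsToric G Δ) {b r : ℕ}
    (hb : b = Module.finrank W.K (W.H Y)) (hr : r = toricRank G Δ) :
    ∃ (C : ℝ) (N : ℕ∞), 0 < C ∧ 1 ≤ N ∧
      Tendsto (scaled b r G.tateDim) atTop (𝓝 C) ∧
      Tendsto (scaled b r fun n => cycRank ops (pw Y n)) atTop
        (𝓝 (C * ((N : ℝ≥0∞)⁻¹).toReal)) ∧
      (N = 1 ↔ ∀ n, G.TateFor n) :=
  main h hb hr

end Pool.Agent.Results.MP_938ce2_ag.GrowthLawTori
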