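import Pool.Agent.X299.Tate.Bridge

/-!
# MP_938ce2_ag: the Tate conjecture for all powers, or half of the Tate classes are not algebraic

Let `Y` be a smooth projective variety over a number field such that the Galois group acts
semisimply on the cohomology of all powers of `Y` (for instance an abelian variety, by Faltings).
Either the Tate conjecture holds for all powers of `Y`, in all codimensions, or for every `ε > 0`
and all sufficiently large `n` the algebraic classes span at most `1 / 2 + ε` of the space of the
Tate classes on `Y^n`.
-/

set_option autoImplicit false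

open CategoryTheory AlgebraicGeometry Filter Topology

universe u v w

namespace Pool.Agent.Results.MP_938ce2_ag.TateOrHalf

open Pool.Agent.H914 Pool.Agent.H914.VarClass Pool.Agent.Y129 Pool.Agent.X299

theorem result {k : Type u} [Field k] {𝒱 : VarClass k} {ops : CycleOps 𝒱}
    (W : WeilCohomology.{u, v} ops) (Y : 𝒱.Obj) [Nontrivial (W.H Y)]
    {Γ : Type w} [Group Γ] (R : PowAct W Y Γ) (hs : R.Semisimple) :
    R.TateConjecture ∨ ∀ ε : ℝ, 0 < ε → ∃ n₀ : ℕ, ∀ n ≥ n₀,
      (algDim W (pw Y n) : ℝ) ≤ (1 / 2 + ε) * R.tateDim n :=
  R.half hs

end Pool.Agent.Results.MP_938ce2_ag.TateOrHalf
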