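import Pool.Agent.X305.TP.Geo

open CategoryTheory AlgebraicGeometry

universe u v w

open Pool.Agent.H914 Pool.Agent.H914.VarClass Pool.Agent.H914.VarClass.Obj
  Pool.Agent.X305.TP

/-- **The Tate conjecture over number fields from discriminants at two places, in every
codimension.** Let `X` be a smooth proper variety of dimension `2 n + g` over the algebraic closure of
a number field, `D` an ample divisor, `W` the `ℓ`-adic cohomology, `Γ` the Galois group of a number
field over which `X` and `D` are defined, and `ρ` its action on `H^(2 n) (X)` with the Tate twist; it
preserves the form `tr (x ξ ^ g y)`, `ξ` the class of `D`, which is nondegenerate by hard Lefschetz. Let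
`A` be a correspondence of `X` with itself over this number field (an endomorphism, a Hecke operator,
the diagonal) whose action on `H^(2 n) (X)` is self-adjoint for the form and diagonalisable over the
coefficient field `W.K`, with eigenvalues in `Λ`. For `μ` in `Λ` let `V μ` be the `μ`-eigenspace of `A`
in `H^(2 n) (X)` and `N μ` that in the span of the algebraic classes. Suppose that for each `μ`

* either for some element `s` of `Γ` (a Frobenius element at a place of good reduction) the number `r`
  of eigenvalues of `s` on `V μ` which are roots of unity is at most `dim N μ`;
* or there are elements `s`, `s'` (Frobenius elements at two places of good reduction) for which this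
  number `r` is at most `dim N μ + 1`, and `Q (1) Q (-1) Q' (1) Q' (-1)` is not a square in the field
  `W.K`; here `(X - 1) ^ r Q` and `(X - 1) ^ r Q'` are the characteristic polynomials of `s` and `s'` on
  `V μ` (the elements are replaced by powers, so that the eigenvalues which are roots of unity are
  equal to `1`).

Then the Tate conjecture holds for `X` in codimension `n`: each class in `H^(2 n) (X)` which is fixed
by a subgroup of finite index of `Γ` is a linear combination of classes of algebraic cycles.

So one missing class for each eigenvalue at all places is no obstruction to the proof of the Tate
conjecture by reduction, as soon as two discriminants differ. For `n = 1`, `X` a surface and `A` the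
diagonal this is a form of van Luijk's method. -/
theorem Pool.Agent.Results.MP_938ce2_ag.TwoPlaceDiscriminant.result {k : Type u} [Field k]
    {𝒱 : VarClass k} {ops : CycleOps 𝒱} {W : WeilCohomology.{u, v} ops} {X : 𝒱.Obj}
    {D : X.Cycles} {n g : ℕ} (hd : 2 * n + g = X.dim) (hHL : HardLefschetz W X D) {Γ : Type w}
    [Group Γ] {ρ : LinAct Γ W.K (W.H X)} (hρ : IsGaloisAction W X D n g ρ)
    {A : (X.prod X).Cycles} {Λ : Finset W.K} (hA : IsDiagonalCorr W X D n g ρ A Λ)
    (h : PlacesSuffice W X n ρ A Λ) : TateConjecture W X n ρ :=
  tate_of_suffices hd hHL hρ hA h
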